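import Pool.Agent.H346.TH.Pos

/-!
# MP_d8e3a9_al, Q1: the trivial subgroup is not tame in Thompson's group `F` with respect to `P_∞`

`ThF` is Thompson's group `F`, given by the presentation
`P_∞ = ⟨x_0, x_1, x_2, ... | x_k⁻¹ x_n x_k = x_{n+1} (k < n)⟩`, and `Cay` is its Cayley 2-complex:
vertices `g`, edges `(g, n)` from `g` to `g x_n`, one 2-cell `(g, r)` for each `g` and each relator
`r`.

For a finite subcomplex `C` of `Cay`, the complement of `C` is replaced by the full subcomplex of
the barycentric subdivision `Sd Cay` on the (barycentres of the) cells that are not in `C`, to which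
it deformation retracts; `(Sd Cay).Pi1 Cᶜ c` is its fundamental group at `c`, that is the
fundamental group of the component of `c`.
-/

set_option autoImplicit false

namespace Pool.Agent.Results.MP_d8e3a9_al.InfinitePresentation

open Pool.Agent.R645.TM Pool.Agent.R645.TM.Cx Pool.Agent.H346.TH

/-- `C` is edge-full: it contains each edge of the Cayley complex whose two end points lie in
`C`. -/
def EdgeFull (C : Set (Cell Cay)) : Prop :=
  ∀ (g : ThF) (n : ℕ), Cell.v (K := Cay) g ∈ C → Cell.v (K := Cay) (g * x n) ∈ C →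
    Cell.e (K := Cay) (g, n) ∈ C

/-- all components of the complement of `C` have finitely generated fundamental groups -/
def AllFG (C : Set (Cell Cay)) : Prop :=
  ∀ c : (Cᶜ : Set (Cell Cay)), Group.FG ((Sd Cay).Pi1 Cᶜ c)

theorem iff_full {C : Set (Cell Cay)} (hC : IsFinSub Cay C) : AllFG C ↔ EdgeFull C := by
  constructor
  · intro h g n h1 h2
    by_contra h3
    exact not_fg C hC.fin g n h1 h2 h3 (h ⟨_, h3⟩)
  · intro h c
    exact fg hC h c

theorem pair_sub (A : Set (Cell Cay)) (hA : IsFinSub Cay A) (g h : ThF) :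
    IsFinSub Cay (A ∪ {cv g, cv h}) where
  fin := hA.fin.union (by simp)
  edge y hy := by
    rcases hy with hy | hy
    · exact ⟨Or.inl (hA.edge y hy).1, Or.inl (hA.edge y hy).2⟩
    · simp at hy
  face r hr := by
    rcases hr with hr | hr
    · exact fun z hz => Or.inl (hA.face r hr z hz)
    · simp at hr

theorem exists_bad (C : Set (Cell Cay)) (hC : IsFinSub Cay C) :
    ∃ C', C ⊆ C' ∧ IsFinSub Cay C' ∧ ¬ AllFG C' := by
  have i : Function.Injective (fun u : ThF => ce u 0) := by
    intro a b hab
    cases hab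
    rfl
  obtain ⟨m, hm⟩ := far _ (hC.fin.preimage i.injOn) 1 1
  have h1 := hm m le_rfl
  rw [mul_one, one_mul] at h1
  refine ⟨C ∪ {cv (x m), cv (x m * x 0)}, Set.subset_union_left, pair_sub C hC _ _, ?_⟩
  rw [iff_full (pair_sub C hC _ _)]
  intro h
  rcases h (x m) 0 (Or.inr (Or.inl rfl)) (Or.inr (Or.inr rfl)) with h2 | h2
  · exact h1 h2
  · simp at h2

theorem exists_good (C : Set (Cell Cay)) (hC : IsFinSub Cay C) :
    ∃ C', C ⊆ C' ∧ IsFinSub Cay C' ∧ AllFG C' := by
  let D : Set (Cell Cay) := {c | ∃ y : Cay.E, c = Cell.e y ∧ Cell.v (Cay.src y) ∈ C ∧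
    Cell.v (Cay.tgt y) ∈ C}
  have hD : D.Finite := by
    have i : Function.Injective (fun y : Cay.E => (cv (Cay.src y), cv (Cay.tgt y))) := by
      rintro ⟨a, n⟩ ⟨b, m⟩ hab
      simp only [Prod.mk.injEq] at hab
      obtain ⟨h1, h2⟩ := hab
      have h3 : a = b := by
        cases h1
        rfl
      subst h3
      have h4 : a * x n = a * x m := by
        change Cell.v (K := Cay) (a * x n) = Cell.v (K := Cay) (a * x m) at h2
        injection h2
      have h5 := x_inj (mul_left_cancel h4)
      subst h5
      rfl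
    refine (((hC.fin.prod hC.fin).preimage i.injOn).image (fun y => Cell.e (K := Cay) y)).subset ?_
    rintro _ ⟨y, rfl, h1, h2⟩
    exact ⟨y, ⟨h1, h2⟩, rfl⟩
  have hs : IsFinSub Cay (C ∪ D) := by
    refine ⟨hC.fin.union hD, ?_, ?_⟩
    · rintro y (hy | ⟨z, hz, h1, h2⟩)
      · exact ⟨Or.inl (hC.edge y hy).1, Or.inl (hC.edge y hy).2⟩
      · injection hz with hz
        subst hz
        exact ⟨Or.inl h1, Or.inl h2⟩
    · rintro r (hr | ⟨z, hz, -, -⟩)
      · exact fun z hz => Or.inl (hC.face r hr z hz)
      · cases hz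
  refine ⟨C ∪ D, Set.subset_union_left, hs, ?_⟩
  rw [iff_full hs]
  have hv : ∀ g : ThF, cv g ∈ C ∪ D → cv g ∈ C := by
    rintro g (h | ⟨z, hz, -, -⟩)
    · exact h
    · cases hz
  intro g n h1 h2
  exact Or.inr ⟨(g, n), rfl, hv _ h1, hv _ h2⟩

/-- **The trivial subgroup is not tame in Thompson's group `F` with respect to the infinite
presentation `P_∞`**, and a description of all finite subcomplexes which cause this.

1. For all `g` and `n`, the set `C = {g, g x_n}` of two vertices is a finite subcomplex of the
Cayley 2-complex, and the component of the complement of `C` that contains the (open) edge `(g, n)`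
has a fundamental group which is not finitely generated.
2. For each finite subcomplex `C`, all components of the complement of `C` have finitely generated
fundamental groups if and only if `C` contains each edge whose two end points lie in `C`.
3. Each finite subcomplex is contained in a finite subcomplex `C'` such that some component of the
complement of `C'` has a fundamental group which is not finitely generated, and in a finite
subcomplex `C''` such that all components of the complement of `C''` have finitely generated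
fundamental groups. -/
theorem result :
    (∀ (g : ThF) (n : ℕ), IsFinSub Cay {Cell.v g, Cell.v (g * x n)} ∧
      ∃ h : Cell.e (g, n) ∈ ({Cell.v g, Cell.v (g * x n)} : Set (Cell Cay))ᶜ,
        ¬ Group.FG ((Sd Cay).Pi1 ({Cell.v g, Cell.v (g * x n)} : Set (Cell Cay))ᶜ
          ⟨Cell.e (g, n), h⟩)) ∧
    (∀ C : Set (Cell Cay), IsFinSub Cay C → (AllFG C ↔ EdgeFull C)) ∧
    (∀ C : Set (Cell Cay), IsFinSub Cay C →
      (∃ C', C ⊆ C' ∧ IsFinSub Cay C' ∧ ¬ AllFG C') ∧
      (∃ C'', C ⊆ C'' ∧ IsFinSub Cay C'' ∧ AllFG C'')) := by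
  refine ⟨fun g n => ?_, fun C hC => iff_full hC, fun C hC => ⟨exists_bad C hC, exists_good C hC⟩⟩
  have h0 : IsFinSub Cay ∅ := ⟨Set.finite_empty, fun _ h => h.elim, fun _ h => h.elim⟩
  have h1 := pair_sub ∅ h0 g (g * x n)
  rw [Set.empty_union] at h1
  have h2 : ce g n ∈ ({cv g, cv (g * x n)} : Set (Cell Cay))ᶜ := by
    rw [Set.mem_compl_iff]
    simp
  exact ⟨h1, h2, not_fg _ h1.fin g n (Or.inl rfl) (Or.inr rfl) h2⟩

end Pool.Agent.Results.MP_d8e3a9_al.InfinitePresentation
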